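import Mathlib
import Pool.Agent.H107.AbcWin

/-!
# The abc conjecture without exceptions in windows of heights

Let `v ≥ 1` be a sequence with exponent of convergence at most `τ` (for `v_n = n ^ a` this is `1 / a`, for `v_n = b ^ n`
it is `0`) and `θ < 1`. For all `α > 0` outside a set of Hausdorff dimension at most `(15 / 28 + τ) / (1 - θ)` and each
`B`, for all but finitely many `n`, ALL coprime positive `a + b = c` with `|c - α v_n| ≤ v_n ^ θ` have
`R (abc) > B c`.
-/

set_option autoImplicit false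

namespace Pool.Agent.Results.MP_7aad9f_nt.HeightWindows

/-- the radical `R(m)`: the product of the distinct primes dividing `m` -/
def R (m : ℕ) : ℕ := ∏ p ∈ m.primeFactors, p

/-- the exponent, a continuous piecewise linear function with `F 1 = 15 / 28` -/
noncomputable def F (lam : ℝ) : ℝ :=
  if lam ≤ 2 / 3 then 4 * lam / 7
  else if lam ≤ 1 then (13 * lam + 2) / 28
  else if lam ≤ 3 / 2 then 5 * (10 * lam - 1) / 84
  else if lam ≤ 16 / 9 then (9 * lam - 1) / 15
  else if lam ≤ 2 then 1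
  else lam - 1

/-- the exponent of convergence of the sequence `v` is at most `τ` -/
def ExpLe (v : ℕ → ℝ) (τ : ℝ) : Prop := ∀ t : ℝ, τ < t → Summable (fun n : ℕ => (v n) ^ (-t))

/-- **Theorem.** Let `lam > 0`, `v ≥ 1` a sequence of exponent of convergence at most `τ ≥ 0` and `θ < 1`. There is a
set `E` of Hausdorff dimension at most `(F lam + τ) / (1 - θ)` such that for each `α > 0` outside `E` and each `B`, for
all but finitely many `n`, ALL coprime positive integers `a`, `b` whose sum `c` satisfies `|c - α v_n| ≤ v_n ^ θ` have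
`R (abc) > B c ^ lam`. The sequences `v_n = (n + 1) ^ a` and `v_n = b ^ n` have exponents of convergence at most `1 / a`
and `0`. -/
theorem result :
    (∀ (lam : ℝ) (v : ℕ → ℝ) (τ θ : ℝ), 0 < lam → (∀ n, 1 ≤ v n) → 0 ≤ τ → ExpLe v τ → θ < 1 →
      ∃ E : Set ℝ, dimH E ≤ ENNReal.ofReal ((F lam + τ) / (1 - θ)) ∧
        ∀ α : ℝ, 0 < α → α ∉ E → ∀ B : ℝ, ∃ n₀ : ℕ, ∀ n : ℕ, n₀ ≤ n → ∀ a b c : ℕ, 0 < a → 0 < b →
          Nat.Coprime a b → a + b = c → |(c : ℝ) - α * v n| ≤ (v n) ^ θ →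
            B * (c : ℝ) ^ lam < R (a * b * c)) ∧
    (∀ a : ℝ, 0 < a → ExpLe (fun n : ℕ => ((n : ℝ) + 1) ^ a) (1 / a)) ∧
    (∀ b : ℝ, 1 < b → ExpLe (fun n : ℕ => b ^ n) 0) := by
  refine ⟨fun lam v τ θ hlam hv hτ hE hθ1 => ?_, fun κ hκ => Pool.Agent.Y854.GM.expLe_pow κ hκ,
    fun b hb => Pool.Agent.Y854.GM.expLe_geom b hb⟩
  exact Pool.Agent.H107.AbcWin.win lam hlam hv hτ hE hθ1

end Pool.Agent.Results.MP_7aad9f_nt.HeightWindows
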