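import Mathlib
import Pool.Agent.V11001.KM.Abc

/-!
# The abc conjecture for the triples near the powers of almost every real number

Let `ν n` be real numbers with `ν n / log n → ∞`, for example `ν n = n` or `ν n = n !`. For almost every real `x > 1`,
all `lam > 0` and `θ < 1 - F lam` and each `K`, only finitely many coprime positive `a + b = c` with
`|c - x ^ (ν n)| ≤ x ^ (θ ν n)` for some `n` have `R (abc) ≤ K c ^ lam`. Here `F 1 = 15 / 28` and `F lam < 1` for
`lam < 16 / 9`.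
-/

set_option autoImplicit false

namespace Pool.Agent.Results.MP_7aad9f_nt.HeightsNearPowers

open Filter

/-- the radical `R(m)`: the product of the distinct primes dividing `m` -/
def R (m : ℕ) : ℕ := ∏ p ∈ m.primeFactors, p

/-- the exponent, a continuous piecewise linear function with `F 1 = 15 / 28` -/
noncomputable def F (lam : ℝ) : ℝ :=
  if lam ≤ 2 / 3 then 4 * lam / 7
  else if lam ≤ 1 then (13 * lam + 2) / 28
  else if lam ≤ 3 / 2 then 5 * (10 * lam - 1) / 84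
  else if lam ≤ 16 / 9 then (9 * lam - 1) / 15
  else if lam ≤ 2 then 1
  else lam - 1

/-- the triples `(a, b, c)` of coprime positive integers with `a + b = c` and `R (abc) ≤ K c ^ lam` -/
def Exc (K lam : ℝ) : Set (ℕ × ℕ × ℕ) :=
  {t | 0 < t.1 ∧ 0 < t.2.1 ∧ Nat.Coprime t.1 t.2.1 ∧ t.1 + t.2.1 = t.2.2 ∧
    (R (t.1 * t.2.1 * t.2.2) : ℝ) ≤ K * (t.2.2 : ℝ) ^ lam}

/-- **Theorem.** Let `ν n / log n → ∞` and let `B` be a countable set of real numbers.
(1) For `lam > 0` and `θ < 1` there is a set `E` of Hausdorff dimension at most `F lam / (1 - θ)` such that for each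
`x > 1` outside `E`, each positive `β` in `B` and each `K` only finitely many triples of coprime positive integers
`a + b = c` with `|c - β x ^ (ν n)| ≤ x ^ (θ ν n)` for some `n` have `R (abc) ≤ K c ^ lam`.
(2) For almost every real `x > 1` this holds for all `lam > 0`, all `θ` with `F lam + θ < 1`, all positive `β` in `B`
and all `K`. -/
theorem result : ∀ ν : ℕ → ℝ, Tendsto (fun n : ℕ => ν n / Real.log n) atTop atTop → ∀ B : Set ℝ, B.Countable →
    (∀ lam θ : ℝ, 0 < lam → θ < 1 →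
      ∃ E : Set ℝ, dimH E ≤ ENNReal.ofReal (F lam / (1 - θ)) ∧
        ∀ x : ℝ, 1 < x → x ∉ E → ∀ β ∈ B, 0 < β → ∀ K : ℝ,
          {t : ℕ × ℕ × ℕ | t ∈ Exc K lam ∧ ∃ n : ℕ, |(t.2.2 : ℝ) - β * x ^ ν n| ≤ x ^ (θ * ν n)}.Finite) ∧
    (∀ᵐ x : ℝ, 1 < x → ∀ lam θ : ℝ, 0 < lam → F lam + θ < 1 → ∀ β ∈ B, 0 < β → ∀ K : ℝ,
      {t : ℕ × ℕ × ℕ | t ∈ Exc K lam ∧ ∃ n : ℕ, |(t.2.2 : ℝ) - β * x ^ ν n| ≤ x ^ (θ * ν n)}.Finite) := by
  intro ν hν B hB
  exact ⟨fun lam θ hlam hθ => Pool.Agent.V11001.KM.Abc.dim hν B hB lam θ hlam hθ,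
    Pool.Agent.V11001.KM.Abc.ae hν B hB⟩

end Pool.Agent.Results.MP_7aad9f_nt.HeightsNearPowers
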