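import Pool.Agent.H107.AbcRad

/-!
# The abc conjecture near almost every point, for triples of all heights with a bounded number of prime factors

We consider abc-triples `(a, b, c)` of whatever height whose ratio `a / c` is close to a given point `z`, at distance at most
`rad (abc) ^ (-σ)`.

1. Outside of a set of Hausdorff dimension at most `(4 / 7) / σ`, for all `z`, all `B` and all `n` all but finitely many of these
triples with at most `n` prime factors satisfy `rad (abc) > B c`. So for `σ > 4 / 7` and almost all real `z` the inequality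
`B c < rad (abc)`, stronger than the abc inequality, holds for ALL but finitely many of these triples. (For `σ ≤ 2 / 3` there are
infinitely many abc-triples of this kind near all irrational `z` in `(0, 1)`, by Dirichlet's theorem and `rad (abc) ≤ c ^ 3`,
if the number of the prime factors is not bounded.)

2. The same holds for the triples with any number of prime factors and `c ≤ rad (abc) ^ A`, for all `A`.

3. Outside of a set of dimension ZERO, for all `z`, all `n` and all `w > 0` (arbitrarily small) there is `K` such that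
all but finitely many of the triples with at most `n` prime factors and `|a / c - z| ≤ rad (abc) ^ (-w)` satisfy
`c < rad (abc) ^ K`.

Instead of `a / c` one can take any map of the triples to a metric space, for example `a / c` in `ℚ_p`.

The input are the bounds `X ^ (4 t / 7 + ε)` for the number of the triples with `c ≤ X`, `rad (abc) ≤ c ^ t` (starting library),
and `X ^ ε` for the number of the triples with at most `n` prime factors, `rad (abc) ≤ X` and `c ≥ rad (abc) ^ K`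
(library `Y913`, starting result `MP_1ea25c_nt.FarViolationsRare`).
-/

set_option autoImplicit false

namespace Pool.Agent.Results.MP_7aad9f_nt.RatiosByRadical

open MeasureTheory

/-- the radical: the product of the distinct primes dividing `m` -/
def rad (m : ℕ) : ℕ := ∏ p ∈ m.primeFactors, p

/-- `t = (a, b, c)` is an abc-triple: `a`, `b` are coprime positive integers and `c = a + b` -/
def Triple (t : ℕ × ℕ × ℕ) : Prop := 0 < t.1 ∧ 0 < t.2.1 ∧ Nat.Coprime t.1 t.2.1 ∧ t.1 + t.2.1 = t.2.2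

/-- `rad (abc)` -/
def R (t : ℕ × ℕ × ℕ) : ℕ := rad (t.1 * t.2.1 * t.2.2)

/-- the number of the primes dividing `abc` -/
def omega (t : ℕ × ℕ × ℕ) : ℕ := (t.1 * t.2.1 * t.2.2).primeFactors.card

theorem exc {B : ℝ} {t : ℕ × ℕ × ℕ} (ht : Triple t) (h : (R t : ℝ) ≤ B * t.2.2) : t ∈ Pool.Agent.H107.AbcWin.Exc B 1 := by
  refine ⟨ht.1, ht.2.1, ht.2.2.1, ht.2.2.2, ?_⟩
  rw [Real.rpow_one]
  exact h

/-- **Theorem.** (1), (2), (3) for maps `φ` to metric spaces; (4) for almost all real `z`. -/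
theorem result :
    (∀ (M : Type) [MetricSpace M] (φ : ℕ × ℕ × ℕ → M),
      (∀ σ : ℝ, 0 < σ → ∃ E : Set M, dimH E ≤ ENNReal.ofReal (4 / 7 / σ) ∧ ∀ z ∉ E, ∀ B : ℝ,
        (∀ n : ℕ, {t | Triple t ∧ omega t ≤ n ∧ (R t : ℝ) ≤ B * t.2.2 ∧ dist (φ t) z ≤ (R t : ℝ) ^ (-σ)}.Finite) ∧
        (∀ A : ℝ, {t | Triple t ∧ (t.2.2 : ℝ) ≤ (R t : ℝ) ^ A ∧ (R t : ℝ) ≤ B * t.2.2 ∧
          dist (φ t) z ≤ (R t : ℝ) ^ (-σ)}.Finite)) ∧
      (∃ E : Set M, dimH E = 0 ∧ ∀ z ∉ E, ∀ (n : ℕ) (w : ℝ), 0 < w → ∃ K : ℕ,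
        {t | Triple t ∧ omega t ≤ n ∧ (R t) ^ K ≤ t.2.2 ∧ dist (φ t) z ≤ (R t : ℝ) ^ (-w)}.Finite)) ∧
    (∀ᵐ z : ℝ, ∀ σ : ℝ, 4 / 7 < σ → ∀ B : ℝ,
      (∀ n : ℕ, {t | Triple t ∧ omega t ≤ n ∧ (R t : ℝ) ≤ B * t.2.2 ∧
        |(t.1 : ℝ) / t.2.2 - z| ≤ (R t : ℝ) ^ (-σ)}.Finite) ∧
      (∀ A : ℝ, {t | Triple t ∧ (t.2.2 : ℝ) ≤ (R t : ℝ) ^ A ∧ (R t : ℝ) ≤ B * t.2.2 ∧
        |(t.1 : ℝ) / t.2.2 - z| ≤ (R t : ℝ) ^ (-σ)}.Finite)) := by
  have main : ∀ (M : Type) [MetricSpace M] (φ : ℕ × ℕ × ℕ → M), (∀ σ : ℝ, 0 < σ → ∃ E : Set M,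
      dimH E ≤ ENNReal.ofReal (4 / 7 / σ) ∧ ∀ z ∉ E, ∀ B : ℝ,
        (∀ n : ℕ, {t | Triple t ∧ omega t ≤ n ∧ (R t : ℝ) ≤ B * t.2.2 ∧ dist (φ t) z ≤ (R t : ℝ) ^ (-σ)}.Finite) ∧
        (∀ A : ℝ, {t | Triple t ∧ (t.2.2 : ℝ) ≤ (R t : ℝ) ^ A ∧ (R t : ℝ) ≤ B * t.2.2 ∧
          dist (φ t) z ≤ (R t : ℝ) ^ (-σ)}.Finite)) := by
    intro M _ φ σ hσ
    obtain ⟨E, h1, h2⟩ := Pool.Agent.H107.AbcRad.near φ hσ
    refine ⟨E, h1, fun z hz B => ⟨fun n => ?_, fun A => ?_⟩⟩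
    · refine ((h2 z hz B).2 n).subset ?_
      rintro t ⟨g1, g2, g3, g4⟩
      exact ⟨exc g1 g3, g2, g4⟩
    · refine ((h2 z hz B).1 A).subset ?_
      rintro t ⟨g1, g2, g3, g4⟩
      exact ⟨⟨exc g1 g3, g2⟩, g4⟩
  refine ⟨fun M _ φ => ⟨main M φ, ?_⟩, ?_⟩
  · obtain ⟨E, h1, h2⟩ := Pool.Agent.H107.AbcRad.near_zero φ
    refine ⟨E, h1, fun z hz n w hw => ?_⟩
    obtain ⟨K, hK⟩ := h2 z hz n w hw
    refine ⟨K, hK.subset ?_⟩
    rintro t ⟨g1, g2, g3, g4⟩
    refine ⟨⟨g1.1, g1.2.1, g1.2.2.1, g1.2.2.2, g2, ?_⟩, g4⟩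
    rw [Real.rpow_natCast]
    have g5 : ((R t : ℕ) : ℝ) ^ K ≤ ((t.2.2 : ℕ) : ℝ) := by exact_mod_cast g3
    exact g5
  · have hpos : ∀ k : ℕ, (0 : ℝ) < 4 / 7 + 1 / ((k : ℝ) + 1) := fun k => by positivity
    choose E hE1 hE2 using fun k : ℕ => main ℝ (fun t => (t.1 : ℝ) / t.2.2) _ (hpos k)
    have hnull : ∀ k, volume (E k) = 0 := by
      intro k
      rw [← hausdorffMeasure_real]
      refine hausdorffMeasure_of_dimH_lt (d := 1) ?_
      refine (hE1 k).trans_lt ?_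
      have h1 : 4 / 7 / (4 / 7 + 1 / ((k : ℝ) + 1)) < 1 := by
        rw [div_lt_one (hpos k)]
        have : (0 : ℝ) < 1 / ((k : ℝ) + 1) := by positivity
        linarith
      have h2 := (ENNReal.ofReal_lt_one).2 h1
      simpa using h2
    have hae : ∀ᵐ z : ℝ, ∀ k, z ∉ E k := by
      rw [ae_all_iff]
      intro k
      exact compl_mem_ae_iff.2 (hnull k)
    filter_upwards [hae] with z hz σ hσ B
    obtain ⟨k, hk⟩ := exists_nat_one_div_lt (sub_pos.2 hσ)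
    have hle : ∀ t : ℕ × ℕ × ℕ, (R t : ℝ) ^ (-σ) ≤ (R t : ℝ) ^ (-(4 / 7 + 1 / ((k : ℝ) + 1))) := by
      intro t
      have h1 : (1 : ℝ) ≤ R t := Pool.Agent.H107.AbcRad.one_le_rd t
      exact Real.rpow_le_rpow_of_exponent_le h1 (by linarith)
    refine ⟨fun n => ?_, fun A => ?_⟩
    · refine ((hE2 k z (hz k) B).1 n).subset ?_
      rintro t ⟨g1, g2, g3, g4⟩
      exact ⟨g1, g2, g3, by rw [Real.dist_eq]; exact g4.trans (hle t)⟩
    · refine ((hE2 k z (hz k) B).2 A).subset ?_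
      rintro t ⟨g1, g2, g3, g4⟩
      exact ⟨g1, g2, g3, by rw [Real.dist_eq]; exact g4.trans (hle t)⟩

end Pool.Agent.Results.MP_7aad9f_nt.RatiosByRadical
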