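import Mathlib
import Pool.Agent.H107.AbcSlope

/-!
# The abc conjecture near a point

Outside of a set `E` of reals of Hausdorff dimension at most `(15 / 28) / σ` each `x` has the following property: for
each `B`, all but finitely many abc triples with `|a / c - x| ≤ c ^ (-σ)` satisfy `R (abc) > B c`.
-/

set_option autoImplicit false

namespace Pool.Agent.Results.MP_7aad9f_nt.RatiosNearPoints

/-- the radical `R(m)`: the product of the distinct primes dividing `m` -/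
def R (m : ℕ) : ℕ := ∏ p ∈ m.primeFactors, p

/-- the triples `(a, b, c)` of coprime positive integers with `a + b = c` and
`R (abc) ≤ B * c ^ lam` -/
def Small (B lam : ℝ) : Set (ℕ × ℕ × ℕ) :=
  {t | 0 < t.1 ∧ 0 < t.2.1 ∧ Nat.Coprime t.1 t.2.1 ∧ t.1 + t.2.1 = t.2.2 ∧
    (R (t.1 * t.2.1 * t.2.2) : ℝ) ≤ B * (t.2.2 : ℝ) ^ lam}

/-- the exponent, a continuous piecewise linear function with `F 1 = 15 / 28` -/
noncomputable def F (lam : ℝ) : ℝ :=
  if lam ≤ 2 / 3 then 4 * lam / 7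
  else if lam ≤ 1 then (13 * lam + 2) / 28
  else if lam ≤ 3 / 2 then 5 * (10 * lam - 1) / 84
  else if lam ≤ 16 / 9 then (9 * lam - 1) / 15
  else if lam ≤ 2 then 1
  else lam - 1

/-- **Theorem.** Let `lam > 0`.
(1) For each `σ > 0` there is a set `E` of reals of Hausdorff dimension at most `F lam / σ` such that for each `x`
outside `E` and each `B` all but finitely many triples `(a, b, c)` of coprime positive integers with `a + b = c` and
`|a / c - x| ≤ c ^ (-σ)` satisfy `R (abc) > B c ^ lam`.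
(2) For almost all real `x` this holds for all `σ > F lam` and all `B`.
(3) The statement (1) holds for every map of the triples to a metric space in place of `a / c`. -/
theorem result (lam : ℝ) (hlam : 0 < lam) :
    (∀ σ : ℝ, 0 < σ → ∃ E : Set ℝ, dimH E ≤ ENNReal.ofReal (F lam / σ) ∧ ∀ x ∉ E, ∀ B : ℝ,
      {t : ℕ × ℕ × ℕ | t ∈ Small B lam ∧ |(t.1 : ℝ) / t.2.2 - x| ≤ (t.2.2 : ℝ) ^ (-σ)}.Finite) ∧
    (∀ᵐ x : ℝ, ∀ σ : ℝ, F lam < σ → ∀ B : ℝ,
      {t : ℕ × ℕ × ℕ | t ∈ Small B lam ∧ |(t.1 : ℝ) / t.2.2 - x| ≤ (t.2.2 : ℝ) ^ (-σ)}.Finite) ∧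
    (∀ (M : Type) [MetricSpace M] (φ : ℕ × ℕ × ℕ → M) (σ : ℝ), 0 < σ →
      ∃ E : Set M, dimH E ≤ ENNReal.ofReal (F lam / σ) ∧ ∀ x ∉ E, ∀ B : ℝ,
        {t : ℕ × ℕ × ℕ | t ∈ Small B lam ∧ dist (φ t) x ≤ (t.2.2 : ℝ) ^ (-σ)}.Finite) := by
  refine ⟨fun σ hσ => ?_, ?_, fun M _ φ σ hσ => ?_⟩
  · obtain ⟨E, h1, h2⟩ := Pool.Agent.H107.AbcSlope.approx lam hlam (fun t => (t.1 : ℝ) / t.2.2) hσ
    exact ⟨E, h1, fun x hx B => h2 x hx B⟩
  · exact Pool.Agent.H107.AbcSlope.approx_ae lam hlam (fun t => (t.1 : ℝ) / t.2.2)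
  · exact Pool.Agent.H107.AbcSlope.approx lam hlam φ hσ

end Pool.Agent.Results.MP_7aad9f_nt.RatiosNearPoints
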